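import Pool.Agent.helper87.AU.SpecQ2

/-!
# Project au, module QF11: an automorphism different from 1 fixes finitely many places
-/

namespace Pool.Agent.helper53.AU

open scoped Classical IntermediateField

theorem QF11 (hV1 : QV1_stmt) (hV4 : QV4_stmt) : QF11_stmt := by
  intro k F _ _ _ _ hF s hs
  obtain ⟨f, hf⟩ : ∃ f : F, s f ≠ f := by
    by_contra hc
    push Not at hc
    exact hs (AlgEquiv.ext hc)
  have hf0 : f ≠ 0 := by
    rintro rfl
    exact hf (map_zero s)
  have hf1 : s f - f ≠ 0 := sub_ne_zero.2 hf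
  refine ((hV4 k F hF f hf0).union (hV4 k F hF (s f - f) hf1)).subset ?_
  intro P hP
  have hP' : s • P = P := hP
  by_cases h0 : P.Ge 0 f
  · right
    obtain ⟨c, hc⟩ := hV1 k F hF P f h0
    have h1 : P.Ge 1 (s f - algebraMap k F c) := by
      have h2 := (ge_apply_of_smul_eq hP' 1 (f - algebraMap k F c)).2 hc
      rwa [map_sub, AlgEquiv.commutes] at h2
    have h3 : P.Ge 1 (s f - f) := by
      have h4 := h1.sub hc
      have h5 : s f - algebraMap k F c - (f - algebraMap k F c) = s f - f := by ring
      rwa [h5] at h4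
    have h6 := h3.le hf1
    show P.ord (s f - f) ≠ 0
    omega
  · left
    show P.ord f ≠ 0
    intro h
    exact h0 (Or.inr h.ge)

end Pool.Agent.helper53.AU
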