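import Pool.Agent.helper87.AU.SpecQ1

/-!
# Project au, module QL1: elements independent over the polynomials in `z`
-/

namespace Pool.Agent.helper53.AU

open scoped Classical IntermediateField
open Polynomial (aeval)

theorem QL1_frac {k F : Type} [Field k] [Field F] [Algebra k F] (z : F) (g : k⟮z⟯) :
    ∃ r s : Polynomial k, aeval z s ≠ 0 ∧ (g : F) * aeval z s = aeval z r := by
  obtain ⟨r, s, h⟩ := (IntermediateField.mem_adjoin_simple_iff k (g : F)).1 g.2
  by_cases hs : aeval z s = 0
  · refine ⟨0, 1, by simp, ?_⟩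
    rw [h, hs]
    simp
  · exact ⟨r, s, hs, by rw [h, div_mul_cancel₀ _ hs]⟩

theorem QL1_lin {k F : Type} [Field k] [Field F] [Algebra k F] (z : F) {ι : Type} [Fintype ι]
    (u : ι → F)
    (h : ∀ φ : ι → Polynomial k, ∑ i, aeval z (φ i) * u i = 0 → ∀ i, φ i = 0) :
    LinearIndependent k⟮z⟯ u := by
  rw [Fintype.linearIndependent_iff]
  intro g hg
  choose r s hs hrs using fun i => QL1_frac z (g i)
  have h1 : ∑ i, aeval z (r i * ∏ j ∈ Finset.univ.erase i, s j) * u i = 0 := by
    have h2 : ∀ i, aeval z (r i * ∏ j ∈ Finset.univ.erase i, s j) * u i =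
        (∏ j, aeval z (s j)) * (g i • u i) := by
      intro i
      rw [map_mul, map_prod, ← hrs i, IntermediateField.smul_def, smul_eq_mul,
        ← Finset.mul_prod_erase Finset.univ (fun j => aeval z (s j)) (Finset.mem_univ i)]
      ring
    simp_rw [h2]
    rw [← Finset.mul_sum, hg, mul_zero]
  have h3 := h _ h1
  intro i
  have h4 := h3 i
  have h5 : ∏ j ∈ Finset.univ.erase i, s j ≠ 0 := by
    rw [Finset.prod_ne_zero_iff]
    intro j _ h6
    apply hs j
    rw [h6, map_zero]
  have h6 : r i = 0 := (mul_eq_zero.1 h4).resolve_right h5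
  have h7 := hrs i
  rw [h6, map_zero] at h7
  exact Subtype.ext ((mul_eq_zero.1 h7).resolve_right (hs i))

theorem QL1 (h0 : QL0_stmt) : QL1_stmt := by
  intro k F _ _ _ hF z hz ι _ u hu
  have := h0 k F hF z hz
  exact (QL1_lin z u hu).fintype_card_le_finrank

end Pool.Agent.helper53.AU
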