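import Pool.Agent.helper75.AU.SpecW
import Pool.Agent.helper46.AU.QL1

/-!
# Project au, module QW3: the degree of `k(x, y)` over `k(x)`
-/

namespace Pool.Agent.helper53.AU

open scoped Classical IntermediateField
open Polynomial (aeval)

theorem QW3_not_mem {k F : Type} [Field k] [Field F] [Algebra k F] {f : Polynomial k} {x y : F}
    (hf : Squarefree f) (hd : 1 ≤ f.natDegree) (h : Hyp k x y f) : y ∉ k⟮x⟯ := by
  intro hy
  obtain ⟨r, s, hs, hrs⟩ := QL1_frac x (⟨y, hy⟩ : k⟮x⟯)
  have hrs' : y * aeval x s = aeval x r := hrs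
  have h1 : aeval x (r ^ 2) = aeval x (f * s ^ 2) := by
    rw [map_pow, ← hrs', mul_pow, h.eq, map_mul, map_pow]
  have h2 : r ^ 2 = f * s ^ 2 := transcendental_iff_injective.1 h.tr h1
  have hs0 : s ≠ 0 := by
    rintro rfl
    exact hs (map_zero _)
  have h3 : s ∣ r := by
    rw [← IsIntegrallyClosed.pow_dvd_pow_iff (n := 2) (by norm_num)]
    exact ⟨f, by rw [h2, mul_comm]⟩
  obtain ⟨t, rfl⟩ := h3
  have h4 : t * t = f := by
    have h5 : s ^ 2 * (t * t) = s ^ 2 * f := by
      rw [mul_comm (s ^ 2) f, ← h2]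
      ring
    exact mul_left_cancel₀ (pow_ne_zero 2 hs0) h5
  have h5 : IsUnit t := hf t (h4 ▸ dvd_rfl)
  have h6 : IsUnit f := h4 ▸ h5.mul h5
  have h7 := Polynomial.natDegree_eq_zero_of_isUnit h6
  omega

theorem QW3 : QW3_stmt := by
  intro k F _ _ _ f x y hf hd h
  have hy := QW3_not_mem hf hd h
  set K := k⟮x⟯ with hK
  have hx : x ∈ K := IntermediateField.mem_adjoin_simple_self k x
  have hfx : aeval x f ∈ K := by
    have : aeval x f = ((aeval (⟨x, hx⟩ : K) f : K) : F) := by
      have := Polynomial.aeval_algebraMap_apply F (⟨x, hx⟩ : K) f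
      exact this
    rw [this]
    exact SetLike.coe_mem _
  let q : Polynomial K := Polynomial.X ^ 2 - Polynomial.C ⟨aeval x f, hfx⟩
  have hq : q.Monic := Polynomial.monic_X_pow_sub_C _ (by norm_num)
  have hqd : q.natDegree = 2 := Polynomial.natDegree_X_pow_sub_C
  have hqy : aeval y q = 0 := by
    have h1 : aeval y q = y ^ 2 - aeval x f := by
      simp only [q, map_sub, map_pow, Polynomial.aeval_X, Polynomial.aeval_C]
      rfl
    rw [h1, h.eq, sub_self]
  have hint : IsIntegral K y := ⟨q, hq, by rw [← Polynomial.aeval_def]; exact hqy⟩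
  have h1 : (minpoly K y).natDegree ≤ 2 := by
    rw [← hqd]
    exact Polynomial.natDegree_le_of_dvd (minpoly.dvd K y hqy) hq.ne_zero
  have h2 : 0 < (minpoly K y).natDegree := minpoly.natDegree_pos hint
  have h3 : (minpoly K y).natDegree ≠ 1 := by
    rw [Ne, minpoly.natDegree_eq_one_iff]
    rintro ⟨z, hz⟩
    apply hy
    rw [← hz]
    exact z.2
  have h4 : (IntermediateField.adjoin K ({y} : Set F)) = ⊤ := by
    have h5 := IntermediateField.adjoin_adjoin_left k ({x} : Set F) ({y} : Set F)
    have h6 : ({x} : Set F) ∪ {y} = {x, y} := rfl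
    rw [h6, h.gen] at h5
    rw [eq_top_iff]
    intro z _
    have h7 : z ∈ (IntermediateField.restrictScalars k
      (IntermediateField.adjoin K ({y} : Set F))) := by
      rw [h5]
      exact IntermediateField.mem_top
    exact h7
  have h5 : Module.finrank K F = 2 := by
    have h6 := IntermediateField.adjoin.finrank hint
    rw [h4, IntermediateField.finrank_top'] at h6
    rw [h6]
    omega
  have h6 : FiniteDimensional K F := Module.finite_of_finrank_pos (by rw [h5]; norm_num)
  exact ⟨⟨x, h.tr, h6⟩, h5⟩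

end Pool.Agent.helper53.AU
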