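import Pool.Agent.helper53.AU.SpecG3

/-!
# Project au, module C5: in case (c) the group is 2-transitive
-/

namespace Pool.Agent.helper53.AU

open scoped Classical

/-- the subgroup of the elements of `oddPart A` commuting with `t` -/
def C5_Ac {L : Type} [Group L] (A : Subgroup L) (t : L) : Subgroup L where
  carrier := {a | a ∈ oddPart A ∧ t * a = a * t}
  mul_mem' := by
    rintro a b ⟨ha, ha'⟩ ⟨hb, hb'⟩
    exact ⟨mul_mem ha hb, by rw [← mul_assoc, ha', mul_assoc, hb', mul_assoc]⟩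
  one_mem' := ⟨one_mem _, by simp⟩
  inv_mem' := by
    rintro a ⟨ha, ha'⟩
    refine ⟨inv_mem ha, ?_⟩
    have h : Commute t a := ha'
    exact h.inv_right

theorem C5_mem {L : Type} [Group L] (A : Subgroup L) (t a : L) :
    a ∈ C5_Ac A t ↔ a ∈ oddPart A ∧ t * a = a * t := Iff.rfl

theorem C5_odd_le {L : Type} [Group L] (A : Subgroup L) : oddPart A ≤ A := by
  rw [oddPart, Subgroup.closure_le]
  exact fun a ha => ha.1

theorem C5_torsion {L : Type} [Group L] [Finite L] (A B : Subgroup L) (hA : IsCyclic A)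
    (hB : B ≤ A) (ρ : L) (hρ : ρ ∈ B) (hr : (orderOf ρ).Prime) :
    Nat.card {a : L // a ∈ B ∧ a ^ (orderOf ρ) = 1} = orderOf ρ := by
  apply le_antisymm
  · have h1 : Nat.card {a : A // a ^ (orderOf ρ) = 1} ≤ orderOf ρ := by
      have := Fintype.ofFinite A
      rw [Nat.card_eq_fintype_card, Fintype.card_subtype]
      exact IsCyclic.card_pow_eq_one_le hr.pos
    refine le_trans ?_ h1
    refine Nat.card_le_card_of_injective
      (fun a : {a : L // a ∈ B ∧ a ^ (orderOf ρ) = 1} =>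
        (⟨⟨a.1, hB a.2.1⟩, by ext; simpa using a.2.2⟩ : {a : A // a ^ (orderOf ρ) = 1})) ?_
    intro a b h
    have h2 := congrArg (fun z : {a : A // a ^ (orderOf ρ) = 1} => (z.1 : L)) h
    exact Subtype.ext h2
  · rw [← Nat.card_zpowers ρ]
    refine Nat.card_le_card_of_injective
      (fun a : Subgroup.zpowers ρ =>
        (⟨a.1, (Subgroup.zpowers_le.2 hρ) a.2, by
          obtain ⟨k, hk⟩ := Subgroup.mem_zpowers_iff.1 a.2
          rw [← hk, Nat.card_zpowers, ← zpow_natCast, ← zpow_mul, mul_comm, zpow_mul, zpow_natCast, pow_orderOf_eq_one,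
            one_zpow]⟩ : {a : L // a ∈ B ∧ a ^ (Nat.card (Subgroup.zpowers ρ)) = 1})) ?_
    intro a b h
    have h2 := congrArg (fun z : {a : L // a ∈ B ∧ a ^ (Nat.card (Subgroup.zpowers ρ)) = 1} => (z.1 : L)) h
    exact Subtype.ext h2

theorem C5 (hSR : SR_stmt) (hPLL : PLL_stmt) (hAB : AB_stmt) (hP1 : P1_stmt) (hP6 : P6_stmt)
    (hC2 : C2_stmt) (hC3 : C3_stmt) (hC4 : C4_stmt) : C5_stmt := by
  intro L Ω _ _ A E t ρ hC
  obtain ⟨-, htE, -⟩ := hC2 L Ω A E t ρ hC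
  obtain ⟨-, hcentE, hcop, hcard⟩ := hC3 L Ω A E t ρ hC
  have hprim := hC4 L Ω A E t ρ hC
  have hLL := hC.LL
  have hPL := hPLL L Ω A hLL
  have := hLL.finL
  have := hLL.finΩ
  have := hLL.cyc
  obtain ⟨⟨τ, hτA, hτ⟩, -⟩ := hP1 L Ω A hPL
  obtain ⟨-, -, hD, hreg, -⟩ := hP6 L Ω A hPL τ t hτA hτ hC.dih
  obtain ⟨htt, htA, -⟩ := hC.dih
  obtain ⟨hodd, -⟩ := hAB L A hLL.cyc
  have hcomm : ∀ a ∈ A, ∀ b ∈ A, a * b = b * a := by
    intro a ha b hb
    have h := (IsCyclic.commGroup (α := A)).mul_comm ⟨a, ha⟩ ⟨b, hb⟩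
    exact congrArg Subtype.val h
  set Ac := C5_Ac A t with hAc
  have hAcA : Ac ≤ A := fun a ha => C5_odd_le A ha.1
  have hcop' : Nat.Coprime (Nat.card Ac) (Nat.card (A ⊓ E : Subgroup L)) := hcop
  have hcard' : Nat.card Ac * Nat.card (A ⊓ E : Subgroup L) = Nat.card A := hcard
  have hinf : Ac ⊓ (A ⊓ E) = ⊥ := (Subgroup.disjoint_of_coprime_natCard hcop').eq_bot
  set DE : Subgroup L := E ⊓ (A ⊔ Subgroup.zpowers t) with hDE
  have hDEmem : ∀ g : L, g ∈ DE ↔ g ∈ A ⊓ E ∨ g * t ∈ A ⊓ E := by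
    intro g
    rw [hDE, Subgroup.mem_inf, hD, Subgroup.mem_inf, Subgroup.mem_inf]
    constructor
    · rintro ⟨h1, h2 | h2⟩
      · exact Or.inl ⟨h2, h1⟩
      · exact Or.inr ⟨h2, mul_mem h1 htE⟩
    · rintro (⟨h1, h2⟩ | ⟨h1, h2⟩)
      · exact ⟨h2, Or.inl h1⟩
      · refine ⟨?_, Or.inr h1⟩
        have h3 := mul_mem h2 htE
        rwa [mul_assoc, htt, mul_one] at h3
  have hAcDE : ∀ x ∈ Ac, x ∈ DE → x = 1 := by
    intro x hx hx2
    have hx3 : x ∈ A ⊓ E := by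
      rcases (hDEmem x).1 hx2 with h | h
      · exact h
      · exfalso
        apply htA
        have h4 := mul_mem (inv_mem (hAcA hx)) h.1
        rwa [inv_mul_cancel_left] at h4
    have h5 : x ∈ Ac ⊓ (A ⊓ E) := ⟨hx, hx3⟩
    rw [hinf] at h5
    exact Subgroup.mem_bot.1 h5
  -- decomposition of A
  have hdec : ∀ d ∈ A, ∃ a ∈ Ac, ∃ e ∈ A ⊓ E, d = a * e := by
    have hinj : Function.Injective (fun p : Ac × (A ⊓ E : Subgroup L) =>
        (⟨(p.1 : L) * (p.2 : L), mul_mem (hAcA p.1.2) p.2.2.1⟩ : A)) := by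
      rintro ⟨a, e⟩ ⟨a', e'⟩ h
      have h1 : (a : L) * e = a' * e' := congrArg Subtype.val h
      have h2 : (a' : L)⁻¹ * a = e' * (e : L)⁻¹ := by
        rw [inv_mul_eq_iff_eq_mul, ← mul_assoc, ← h1, mul_inv_cancel_right]
      have h3 : (a' : L)⁻¹ * a ∈ Ac ⊓ (A ⊓ E) :=
        ⟨Ac.mul_mem (Ac.inv_mem a'.2) a.2, h2 ▸ (A ⊓ E).mul_mem e'.2 ((A ⊓ E).inv_mem e.2)⟩
      rw [hinf, Subgroup.mem_bot] at h3
      have h4 : a = a' := Subtype.ext (by rw [inv_mul_eq_one] at h3; exact h3.symm)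
      have h5 : e = e' := by
        rw [h3] at h2
        exact Subtype.ext (by rw [eq_comm, mul_inv_eq_one] at h2; exact h2.symm)
      rw [h4, h5]
    have hbij := (Nat.bijective_iff_injective_and_card _).2 ⟨hinj, by rw [Nat.card_prod, hcard']⟩
    intro d hd
    obtain ⟨⟨a, e⟩, h⟩ := hbij.2 ⟨d, hd⟩
    exact ⟨a, a.2, e, e.2, (congrArg Subtype.val h).symm⟩
  obtain ⟨ω⟩ := hPL.nonempty
  have hρAc : ρ ∈ Ac := ⟨hC.mem, hC.comm⟩
  have hDEcard : Nat.card DE = 2 * Nat.card (A ⊓ E : Subgroup L) := by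
    have e : (A ⊓ E : Subgroup L) ⊕ (A ⊓ E : Subgroup L) ≃ DE := by
      refine Equiv.ofBijective (Sum.elim (fun a => ⟨a.1, (hDEmem _).2 (Or.inl a.2)⟩)
        (fun a => ⟨a.1 * t, (hDEmem _).2 (Or.inr (by rw [mul_assoc, htt, mul_one]; exact a.2))⟩)) ?_
      constructor
      · rintro (a | a) (b | b) h
        · have h1 : (a : L) = b := congrArg (fun z : DE => (z : L)) h
          rw [Subtype.ext h1]
        · exfalso
          have h1 : (a : L) = b * t := congrArg (fun z : DE => (z : L)) h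
          apply htA
          have h2 := A.mul_mem (A.inv_mem b.2.1) a.2.1
          rwa [h1, inv_mul_cancel_left] at h2
        · exfalso
          have h1 : (a : L) * t = b := congrArg (fun z : DE => (z : L)) h
          apply htA
          have h2 := A.mul_mem (A.inv_mem a.2.1) b.2.1
          rwa [← h1, inv_mul_cancel_left] at h2
        · have h1 : (a : L) * t = b * t := congrArg (fun z : DE => (z : L)) h
          rw [Subtype.ext (mul_right_cancel h1)]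
      · rintro ⟨g, hg⟩
        rcases (hDEmem g).1 hg with h | h
        · exact ⟨Sum.inl ⟨g, h⟩, rfl⟩
        · exact ⟨Sum.inr ⟨g * t, h⟩, Subtype.ext (by simp [mul_assoc, htt])⟩
    rw [← Nat.card_congr e, Nat.card_sum, two_mul]
  refine hSR L Ω Ac DE ω (orderOf ρ) hLL.trans hprim
    (fun a ha b hb => hcomm a (hAcA ha) b (hAcA hb)) ?_ ?_ hC.pr
    (C5_torsion A Ac hLL.cyc hAcA ρ hρAc hC.pr) ?_ ?_ ?_
  · intro a ha e he
    exact hcentE a ha.1 ha.2 e he.1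
  · intro α β
    obtain ⟨d, hd, hd2⟩ := hreg α β
    obtain ⟨a, ha, e, he, hae⟩ : ∃ a ∈ Ac, ∃ e ∈ DE, (d : L) = a * e := by
      rcases (hD d).1 d.2 with h | h
      · obtain ⟨a, ha, e, he, h1⟩ := hdec _ h
        exact ⟨a, ha, e, (hDEmem e).2 (Or.inl he), h1⟩
      · obtain ⟨a, ha, e, he, h1⟩ := hdec _ h
        refine ⟨a, ha, e * t, (hDEmem _).2 (Or.inr (by rw [mul_assoc, htt, mul_one]; exact he)), ?_⟩
        rw [← mul_assoc, ← h1, mul_assoc, htt, mul_one]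
    refine ⟨⟨⟨a, ha⟩, ⟨e, he⟩⟩, ?_, ?_⟩
    · show (a * e) • α = β
      rw [← hae]
      exact hd
    · rintro ⟨a', e'⟩ h
      have h1 : (⟨(a' : L) * e', mul_mem ((hD _).2 (Or.inl (hAcA a'.2))) e'.2.2⟩ :
          (A ⊔ Subgroup.zpowers t : Subgroup L)) = d := hd2 _ h
      have h2 : (a' : L) * e' = a * e := by rw [← hae, ← h1]
      have h3 : (a : L)⁻¹ * a' = e * (e' : L)⁻¹ := by
        rw [inv_mul_eq_iff_eq_mul, ← mul_assoc, ← h2, mul_inv_cancel_right]
      have h4 := hAcDE ((a : L)⁻¹ * a') (mul_mem (inv_mem ha) a'.2) (h3 ▸ mul_mem he (inv_mem e'.2))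
      rw [h4] at h3
      rw [inv_mul_eq_one] at h4
      rw [eq_comm, mul_inv_eq_one] at h3
      exact Prod.ext (Subtype.ext h4.symm) (Subtype.ext h3.symm)
  · rw [hDEcard]
    intro hdvd
    have hr := hC.pr
    have h1 : orderOf ρ ∣ Nat.card Ac := by
      have := orderOf_dvd_natCard (⟨ρ, hρAc⟩ : Ac)
      rwa [Subgroup.orderOf_mk] at this
    have h2 : Odd (orderOf ρ) := ((hodd ρ).1 hC.mem).2
    rcases (Nat.Prime.dvd_mul hr).1 hdvd with h | h
    · rw [Nat.prime_dvd_prime_iff_eq hr Nat.prime_two] at h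
      rw [h] at h2
      exact absurd h2 (by decide)
    · have h3 := Nat.dvd_gcd h1 h
      rw [Nat.Coprime] at hcop'
      rw [hcop'] at h3
      exact hr.one_lt.ne' (Nat.dvd_one.1 h3)
  · rw [← hLL.cardA]
    have h1 : orderOf ρ ≤ Nat.card A := by
      have := orderOf_le_card (x := (⟨ρ, hAcA hρAc⟩ : A))
      rwa [Subgroup.orderOf_mk] at this
    have h2 : 0 < Nat.card A := Nat.card_pos
    omega
  · intro a ha e₁ he₁ e₂ he₂ hn1 hn2
    have hfree : ∀ e ∈ DE, e ≠ 1 → e • ω ≠ ω := by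
      intro e he hne h
      obtain ⟨d, hd, hd2⟩ := hreg ω ω
      have h1 := hd2 ⟨e, he.2⟩ h
      have h2 := hd2 1 (by simp)
      rw [← h2] at h1
      exact hne (congrArg Subtype.val h1)
    have htwo := (hC.EG ω).two
    obtain ⟨g, hg1, hg2⟩ := htwo ⟨ω, MulAction.mem_orbit_self ω⟩
      ⟨e₁ • ω, ⟨(⟨e₁, he₁.1⟩ : E), rfl⟩⟩ ⟨ω, MulAction.mem_orbit_self ω⟩
      ⟨e₂ • ω, ⟨(⟨e₂, he₂.1⟩ : E), rfl⟩⟩
      (fun h => hfree e₁ he₁ hn1 (congrArg Subtype.val h).symm)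
      (fun h => hfree e₂ he₂ hn2 (congrArg Subtype.val h).symm)
    have hg1' : (g : L) • ω = ω := congrArg Subtype.val hg1
    have hg2' : (g : L) • (e₁ • ω) = e₂ • ω := congrArg Subtype.val hg2
    refine ⟨g, hg1', ?_⟩
    have h1 : a * (g : L) = g * a := hcentE a ha.1 ha.2 g g.2
    rw [mul_smul, mul_smul, ← mul_smul, ← h1, mul_smul, hg2']

end Pool.Agent.helper53.AU
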