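import Pool.Agent.helper75.AU.SpecR

/-!
# Project au, module S8C: the abstract setting of section 8 holds in Case II
-/

namespace Pool.Agent.helper75.AU

open scoped Classical
open Pool.Agent.helper53.AU MulAction

theorem S8C_lift {G H : Type} [Group G] [Finite G] [Group H] (f : G →* H)
    (hf : Function.Surjective f) (p : ℕ) [Fact p.Prime] (Q : Subgroup H) (hQ : IsPGroup p Q) :
    ∃ T : Subgroup G, IsPGroup p T ∧ T.map f = Q := by
  have P : Sylow p (Q.comap f) := Classical.arbitrary _
  have hg := f.subgroupComap_surjective_of_surjective Q hf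
  refine ⟨(P : Subgroup (Q.comap f)).map (Q.comap f).subtype, P.isPGroup'.map _, ?_⟩
  have h1 : (P : Subgroup (Q.comap f)).map (f.subgroupComap Q) = ⊤ := by
    have h2 : IsPGroup p (⊤ : Subgroup Q) := hQ.to_subgroup _
    have h3 := (P.mapSurjective hg).is_maximal' h2 le_top
    rw [h3]
    exact (Sylow.coe_mapSurjective hg P).symm
  calc ((P : Subgroup (Q.comap f)).map (Q.comap f).subtype).map f
      = (P : Subgroup (Q.comap f)).map (f.comp (Q.comap f).subtype) := Subgroup.map_map _ _ _
    _ = (P : Subgroup (Q.comap f)).map (Q.subtype.comp (f.subgroupComap Q)) := rfl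
    _ = ((P : Subgroup (Q.comap f)).map (f.subgroupComap Q)).map Q.subtype :=
        (Subgroup.map_map _ _ _).symm
    _ = Q := by rw [h1, ← MonoidHom.range_eq_map, Subgroup.range_subtype]

theorem S8C_cyc {G H : Type} [Group G] [Group H] (f : G →* H) (T : Subgroup G)
    (hT : IsCyclic T) : IsCyclic (T.map f) :=
  isCyclic_of_surjective (f.subgroupMap T) (f.subgroupMap_surjective T)

theorem S8C_card {G H : Type} [Group G] [Finite G] [Group H] (f : G →* H) (A T : Subgroup G)
    (hA : A ≤ T) (h : Nat.card T ≤ 2 * Nat.card A) :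
    Nat.card (T.map f) ≤ 2 * Nat.card (A.map f) := by
  have h1 : Nat.card A * A.relIndex T = Nat.card T := by
    rw [← Subgroup.relIndex_bot_left, ← Subgroup.relIndex_bot_left,
      Subgroup.relIndex_mul_relIndex _ _ _ bot_le hA]
  have hfin : Finite (T.map f) := by
    have : Finite ((T : Set G).image f) := Set.Finite.image f (Set.toFinite _)
    exact this
  have hfin2 : Finite (A.map f) := by
    have : Finite ((A : Set G).image f) := Set.Finite.image f (Set.toFinite _)
    exact this
  have h2 : Nat.card (A.map f) * (A.map f).relIndex (T.map f) = Nat.card (T.map f) := by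
    rw [← Subgroup.relIndex_bot_left, ← Subgroup.relIndex_bot_left,
      Subgroup.relIndex_mul_relIndex _ _ _ bot_le (Subgroup.map_mono hA)]
  have hpos : 0 < Nat.card A := Nat.card_pos
  have hposT : 0 < Nat.card T := Nat.card_pos
  have h3 : A.relIndex T ≤ 2 := by
    by_contra hc
    push Not at hc
    have : Nat.card A * 3 ≤ Nat.card A * A.relIndex T := Nat.mul_le_mul_left _ hc
    rw [h1] at this
    omega
  have h4 : (A.map f).relIndex (T.map f) ∣ A.relIndex T := by
    rw [← Subgroup.relIndex_comap]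
    exact Subgroup.relIndex_dvd_of_le_left _ (Subgroup.le_comap_map f A)
  have h5 : 0 < A.relIndex T := by
    rcases Nat.eq_zero_or_pos (A.relIndex T) with h0 | h0
    · rw [h0, mul_zero] at h1
      omega
    · exact h0
  have h6 : (A.map f).relIndex (T.map f) ≤ 2 := le_trans (Nat.le_of_dvd h5 h4) h3
  rw [← h2, mul_comm]
  exact Nat.mul_le_mul_right _ h6

theorem S8C_thr_normal (G : Type) [Group G] : (thr G).Normal := by
  constructor
  intro n hn g
  have h1 : (thr G).map (MulAut.conj g).toMonoidHom ≤ thr G := by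
    rw [thr, MonoidHom.map_closure, Subgroup.closure_le]
    rintro z ⟨w, ⟨m, hm⟩, rfl⟩
    apply Subgroup.subset_closure
    refine ⟨m, ?_⟩
    show ((MulAut.conj g).toMonoidHom w) ^ (3 ^ m) = 1
    rw [← map_pow, hm, map_one]
  exact h1 ⟨n, hn, rfl⟩

theorem S8C (hBA1 : BA1_stmt) (hF3a : F3a_stmt) (hF3b : F3b_stmt) : S8C_stmt := by
  intro k G X _ _ _ _ _ _ l R x y c u h' e' u₁ hS h6 h2
  set f := (ph G).rangeRestrict with hf
  have hfs : Function.Surjective f := (ph G).rangeRestrict_surjective
  have hact : ∀ (g : G) (S : Sylow 3 G), f g • S = g • S := fun _ _ => rfl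
  have hom : Nat.card (Sylow 3 G) = e' := h6.om
  obtain ⟨m, hm⟩ : ∃ m : ℕ, qq R x = 3 ^ m := (hBA1 k G X (l + 1) R x).2.2.2.2.2.2.2.2.1
  have he2 : Nat.Coprime 2 e' := (Nat.prime_two.coprime_iff_not_dvd).2 h2.od
  have he3 : Nat.Coprime 3 e' := (Nat.prime_three.coprime_iff_not_dvd).2 (by
    have := h6.mod3
    omega)
  have hcop : Nat.Coprime (2 * qq R x * u₁ * h') e' := by
    refine Nat.Coprime.mul_left (Nat.Coprime.mul_left (Nat.Coprime.mul_left he2 ?_) ?_) h6.num.cop
    · rw [hm]
      exact Nat.Coprime.pow_left _ he3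
    · rcases h2.u1 with h | h
      · rw [h]; exact Nat.coprime_one_left _
      · rw [h]; exact he2
  have hlp : l.Prime := hS.prime
  have hl2 : l % 2 = 1 := by
    have := hS.mod8
    omega
  refine
    { finG := inferInstance
      finO := inferInstance
      faithful := inferInstance
      normal := (S8C_thr_normal G).map f hfs
      mem := ⟨c, h6.c_mem.2, rfl⟩
      tr := ?_
      odd := by rw [hom]; exact h2.od
      one := by
        rw [hom]
        have := h6.four
        omega
      three := by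
        rw [hom]
        have := h6.mod3
        omega
      copr := ?_
      gen3 := ?_
      cyc := ?_
      syl2 := ?_
      zp := ?_ }
  · intro a b
    obtain ⟨n, hn⟩ := h2.tr a b
    refine ⟨n, ?_⟩
    rw [← map_pow, hact]
    exact hn
  · intro a
    rw [hom]
    have h3 : (thr G).map f ⊓ stabilizer (ph G).range a = (thr G ⊓ stabilizer G a).map f := by
      ext γ
      constructor
      · rintro ⟨⟨t, ht, rfl⟩, hs⟩
        refine ⟨t, ⟨ht, ?_⟩, rfl⟩
        exact hs
      · rintro ⟨t, ⟨ht, hs⟩, rfl⟩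
        exact ⟨⟨t, ht, rfl⟩, hs⟩
    rw [h3]
    refine Nat.Coprime.coprime_dvd_left (Subgroup.card_map_dvd _ _) ?_
    obtain ⟨S₀, hS₀⟩ := h6.two.syl
    obtain ⟨b, hb⟩ := MulAction.exists_smul_eq G S₀ a
    have h4 : Nat.card (thr G ⊓ stabilizer G a : Subgroup G) = 2 * qq R x * u₁ * h' := by
      rw [← h6.cardN1]
      have hmem : ∀ g : G, g ∈ stabilizer G a ↔
          b⁻¹ * g * b ∈ Subgroup.normalizer (R.P x : Set G) := by
        intro g
        have h8 : b⁻¹ * g * b ∈ Subgroup.normalizer (R.P x : Set G) ↔ (b⁻¹ * g * b) • S₀ = S₀ := by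
          rw [← hS₀]
          exact Sylow.smul_eq_iff_mem_normalizer.symm
        rw [h8, mem_stabilizer_iff, ← hb, mul_smul, mul_smul, inv_smul_eq_iff]
      refine Nat.card_congr
        { toFun := fun g => ⟨b⁻¹ * g.1 * b, (hmem g.1).1 g.2.2, ?_⟩
          invFun := fun g => ⟨b * g.1 * b⁻¹, ?_, (hmem _).2 ?_⟩
          left_inv := fun g => Subtype.ext (by simp [mul_assoc])
          right_inv := fun g => Subtype.ext (by simp [mul_assoc]) }
      · have := (S8C_thr_normal G).conj_mem g.1 g.2.1 b⁻¹
        simpa using this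
      · exact (S8C_thr_normal G).conj_mem g.1 g.2.2 b
      · have := g.2.1
        simpa [mul_assoc] using this
    rw [h4]
    exact hcop
  · apply le_antisymm
    · rw [Subgroup.closure_le]
      exact fun z hz => hz.1
    · conv_lhs => rw [thr, MonoidHom.map_closure]
      rw [Subgroup.closure_le]
      rintro z ⟨w, ⟨n, hn⟩, rfl⟩
      apply Subgroup.subset_closure
      refine ⟨⟨w, Subgroup.subset_closure ⟨n, hn⟩, rfl⟩, n, ?_⟩
      rw [← map_pow, hn, map_one]
  · intro r hr h5 Q hQ hQp
    have : Fact r.Prime := ⟨hr⟩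
    obtain ⟨T, hT, hTQ⟩ := S8C_lift f hfs r Q hQp
    by_cases hrl : r = l
    · have hT1 : T = ⊥ := by
        obtain ⟨n, hn⟩ := IsPGroup.iff_card.1 hT
        have h7 : Nat.card T ∣ Nat.card G := Subgroup.card_subgroup_dvd_card T
        have h8 : n = 0 := by
          by_contra hn0
          apply h6.nl
          rw [← hrl]
          exact dvd_trans (dvd_pow_self r hn0) (hn ▸ h7)
        rw [h8, pow_zero] at hn
        exact Subgroup.card_eq_one.1 hn
      rw [← hTQ, hT1, Subgroup.map_bot]
      infer_instance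
    · have h7 := (hF3a k G X l R r T hlp hr h5 hrl hT).2
      rw [← hTQ]
      exact S8C_cyc f T h7
  · intro Q hQ hQp
    have : Fact (Nat.Prime 2) := ⟨Nat.prime_two⟩
    obtain ⟨T, hT, hTQ⟩ := S8C_lift f hfs 2 Q hQp
    obtain ⟨A, hA, hAc, hAcard, -⟩ := (hF3b k G X l R hl2).1 T hT
    refine ⟨A.map f, ?_, S8C_cyc f A hAc, ?_⟩
    · rw [← hTQ]
      exact Subgroup.map_mono hA
    · rw [← hTQ]
      exact S8C_card f A T hA hAcard
  · have h7 := congrArg (Subgroup.map f) h6.zp
    rw [Subgroup.map_commutator, Subgroup.map_top_of_surjective f hfs] at h7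
    exact h7

end Pool.Agent.helper75.AU
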