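import Pool.Agent.helper75.AU.SpecR2
import Pool.Agent.helper46.AU.S8C

/-!
# Project au, module IV: the involutions of `G_1` in Case I
-/

namespace Pool.Agent.helper75.AU

open scoped Classical
open Pool.Agent.helper53.AU MulAction

theorem IV_mem_K1 {G : Type} [Group G] (g : G) :
    g ∈ K1 G ↔ (∀ S : Sylow 3 G, g • S = S) ∧ g ∈ thr G := by
  rw [K1, Subgroup.mem_inf, MonoidHom.mem_ker]
  constructor
  · rintro ⟨h1, h2⟩
    refine ⟨fun S => ?_, h2⟩
    exact congrArg (fun σ : Equiv.Perm (Sylow 3 G) => σ S) h1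
  · rintro ⟨h1, h2⟩
    exact ⟨Equiv.ext h1, h2⟩

theorem IV_K1_normal (G : Type) [Group G] : (K1 G).Normal := by
  have := S8C_thr_normal G
  have h2 : ((ph G).ker).Normal := MonoidHom.normal_ker _
  rw [K1]
  exact Subgroup.normal_inf_normal _ _

theorem IV (hBA1 : BA1_stmt) (hF3b : F3b_stmt) : IV_stmt := by
  intro k G X _ _ _ _ _ _ l R x y c u h' e' u₁ hS h6 h1
  have hord : orderOf c = e' := by rw [h6.c_ord, h1.u1, one_mul]
  have hev : e' = 2 * (e' / 2) := by
    have := h1.ev
    omega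
  have h4 := h6.four
  have hcK : ∀ n : ℕ, e' / 2 ∣ n → c ^ n ∈ K1 G := by
    intro n hn
    rw [IV_mem_K1]
    exact ⟨fun S => (h1.orb S n).2 hn, (thr G).pow_mem h6.c_mem.2 n⟩
  have hz : c ^ (e' / 2) ∈ K1 G := hcK _ dvd_rfl
  have hz1 : c ^ (e' / 2) ≠ 1 := by
    intro h
    have := Nat.le_of_dvd (by omega) (orderOf_dvd_of_pow_eq_one h)
    omega
  have hz2 : c ^ (e' / 2) * c ^ (e' / 2) = 1 := by
    rw [← pow_add, ← two_mul, ← hev, ← hord, pow_orderOf_eq_one]
  obtain ⟨hP3, -, -, -, -, -, -, -, ⟨m, hm⟩, -⟩ := hBA1 k G X (l + 1) R x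
  obtain ⟨hPy, -, -, -, hPyn, -⟩ := hBA1 k G X (l + 1) R y
  -- an element of a 3-group of order dividing a number prime to 3 is trivial
  have htriv : ∀ (P : Subgroup G), IsPGroup 3 P → ∀ (w : G) (n : ℕ), w ∈ P → w ^ n = 1 →
      ¬ 3 ∣ n → w = 1 := by
    intro P hP w n hw hn h3
    obtain ⟨j, hj⟩ := hP ⟨w, hw⟩
    have hj' : w ^ (3 ^ j) = 1 := by
      have := congrArg Subtype.val hj
      simpa using this
    have hd := Nat.dvd_gcd (orderOf_dvd_of_pow_eq_one hj') (orderOf_dvd_of_pow_eq_one hn)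
    have hc : Nat.Coprime (3 ^ j) n :=
      Nat.Coprime.pow_left _ ((Nat.prime_three.coprime_iff_not_dvd).2 h3)
    rw [Nat.Coprime] at hc
    rw [hc, Nat.dvd_one] at hd
    exact orderOf_eq_one_iff.1 hd
  have hzP : c ^ (e' / 2) ∉ R.P x := by
    intro h
    exact hz1 (htriv _ hP3 _ 2 h (by rw [pow_two]; exact hz2) (by norm_num))
  refine ⟨hz, hz1, hz2, hzP, ?_, ?_⟩
  · apply le_antisymm h6.k1card
    have hidx : Nat.card (K1 G ⊓ R.P x : Subgroup G) * (K1 G ⊓ R.P x).relIndex (K1 G) =
        Nat.card (K1 G) := by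
      rw [← Subgroup.relIndex_bot_left, ← Subgroup.relIndex_bot_left,
        Subgroup.relIndex_mul_relIndex _ _ _ bot_le inf_le_left]
    have hpos : 0 < Nat.card (K1 G) := Nat.card_pos
    have h5 : (K1 G ⊓ R.P x).relIndex (K1 G) ≠ 1 := by
      intro h
      exact hzP ((Subgroup.relIndex_eq_one.1 h) hz).2
    have h7 : (K1 G ⊓ R.P x).relIndex (K1 G) ≠ 0 := by
      intro h
      rw [h, mul_zero] at hidx
      omega
    rw [← hidx, mul_comm 2]
    exact Nat.mul_le_mul_left _ (by omega)
  · intro t ht ht2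
    by_cases ht1 : t = 1
    · rw [ht1]
      exact (K1 G).one_mem
    have hl2 : l % 2 = 1 := by
      have := hS.mod8
      omega
    obtain ⟨x₀, hx₀⟩ := (hF3b k G X l R hl2).2 t ht2 ht1
    have hst : stabilizer G x₀ ≠ ⊥ := by
      intro h
      apply ht1
      have h5 : t ∈ stabilizer G x₀ := hx₀
      rw [h] at h5
      exact Subgroup.mem_bot.1 h5
    have hconj2 : ∀ a : G, (a⁻¹ * t * a) * (a⁻¹ * t * a) = 1 := by
      intro a
      have : (a⁻¹ * t * a) * (a⁻¹ * t * a) = a⁻¹ * (t * t) * a := by group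
      rw [this, ht2]
      group
    have hconjthr : ∀ a : G, a⁻¹ * t * a ∈ thr G := by
      intro a
      have := (S8C_thr_normal G).conj_mem t ht a⁻¹
      simpa using this
    rcases h6.two.cov x₀ hst with ⟨a, ha⟩ | ⟨a, ha⟩
    · exfalso
      have ha' : a • x = x₀ := ha
      have h5 : (a⁻¹ * t * a) • x = x := by
        rw [mul_smul, mul_smul, ha', hx₀, ← ha', inv_smul_smul]
      have h7 : a⁻¹ * t * a ∈ stabilizer G x ⊓ thr G := ⟨h5, hconjthr a⟩
      have h8 : orderOf (a⁻¹ * t * a) ∣ Nat.card (stabilizer G x ⊓ thr G : Subgroup G) := by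
        have := orderOf_dvd_natCard (⟨_, h7⟩ : (stabilizer G x ⊓ thr G : Subgroup G))
        rwa [Subgroup.orderOf_mk] at this
      have h9 : orderOf (a⁻¹ * t * a) = 2 := by
        apply orderOf_eq_prime
        · rw [pow_two]
          exact hconj2 a
        · intro h
          apply ht1
          have : t = a * (a⁻¹ * t * a) * a⁻¹ := by group
          rw [this, h]
          group
      rw [h9, h6.cardB1, h1.u1, mul_one, hm] at h8
      rcases (Nat.Prime.dvd_mul Nat.prime_two).1 h8 with h10 | h10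
      · have := Nat.prime_two.dvd_of_dvd_pow h10
        omega
      · exact h1.od h10
    · have ha' : a • y = x₀ := ha
      have h5 : (a⁻¹ * t * a) • y = y := by
        rw [mul_smul, mul_smul, ha', hx₀, ← ha', inv_smul_smul]
      have h7 : a⁻¹ * t * a ∈ stabilizer G y ⊓ thr G := ⟨h5, hconjthr a⟩
      obtain ⟨p, hp, n, hpn⟩ := h6.c_gen _ h7
      have hcy : c • y = y := h6.c_mem.1
      have hcny : (c ^ n) • y = y := (stabilizer G y).pow_mem h6.c_mem.1 n
      have h8 : p * (c ^ n * p * (c ^ n)⁻¹) * (c ^ n * c ^ n) = 1 := by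
        have := hconj2 a
        rw [hpn] at this
        rw [← this]
        group
      have h9 : c ^ n * p * (c ^ n)⁻¹ ∈ R.P y := hPyn _ _ hcny hp
      have h10 : c ^ n * c ^ n ∈ R.P y := by
        have h11 : c ^ n * c ^ n = (p * (c ^ n * p * (c ^ n)⁻¹))⁻¹ := by
          rw [eq_comm, inv_eq_iff_mul_eq_one]
          exact h8
        rw [h11]
        exact (R.P y).inv_mem ((R.P y).mul_mem hp h9)
      have h12 : c ^ n * c ^ n = 1 := by
        apply htriv _ hPy _ e' h10
        · rw [← pow_add, ← pow_mul, mul_comm, pow_mul, ← hord, pow_orderOf_eq_one, one_pow]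
        · have := h6.mod3
          omega
      have h13 : e' / 2 ∣ n := by
        have h14 : e' ∣ 2 * n := by
          rw [← hord, orderOf_dvd_iff_pow_eq_one, two_mul, pow_add]
          exact h12
        rw [hev] at h14
        exact Nat.dvd_of_mul_dvd_mul_left (by norm_num) h14
      have h15 := hcK n h13
      rw [h12, mul_one] at h8
      have h16 : c ^ n * p * (c ^ n)⁻¹ = p⁻¹ := eq_inv_of_mul_eq_one_right h8
      have hpthr : p ∈ thr G := by
        obtain ⟨j, hj⟩ := hPy ⟨p, hp⟩
        apply Subgroup.subset_closure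
        exact ⟨j, by simpa using congrArg Subtype.val hj⟩
      have h17 := (h6.k1c _ h15 p hpthr).1
      rw [h16] at h17
      have h18 : p * p ∈ K1 G := by
        have := (K1 G).inv_mem h17
        simpa using this
      have h19 : p ∈ K1 G := by
        obtain ⟨j, hj⟩ := hPy ⟨p, hp⟩
        have hj' : p ^ (3 ^ j) = 1 := by simpa using congrArg Subtype.val hj
        have hodd : Odd (3 ^ j) := Odd.pow (by decide)
        obtain ⟨i, hi⟩ := hodd
        have h20 : p = (p * p) ^ (i + 1) := by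
          have h21 : (p * p) ^ (i + 1) = p ^ (2 * i + 1) * p := by
            rw [← pow_two, ← pow_mul, ← pow_succ]
            ring_nf
          rw [h21, ← hi, hj', one_mul]
        rw [h20]
        exact (K1 G).pow_mem h18 _
      have h22 : a⁻¹ * t * a ∈ K1 G := by
        rw [hpn]
        exact (K1 G).mul_mem h19 h15
      have h23 := (IV_K1_normal G).conj_mem _ h22 a
      have h24 : a * (a⁻¹ * t * a) * a⁻¹ = t := by group
      rwa [h24] at h23

end Pool.Agent.helper75.AU
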