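import Pool.Agent.helper75.AU.SpecR

/-!
# Project au, module ZS: 2-groups with a cyclic subgroup of index at most 2
-/

namespace Pool.Agent.helper75.AU

open scoped Classical
open Pool.Agent.helper53.AU MulAction

theorem ZS : ZS_stmt := by
  intro W _ _ S A Z _ hA hAc hcard hZ hZc
  have hcomm : ∀ a ∈ A, ∀ b ∈ A, a * b = b * a := by
    intro a ha b hb
    have h := (IsCyclic.commGroup (α := A)).mul_comm ⟨a, ha⟩ ⟨b, hb⟩
    exact congrArg Subtype.val h
  have hle : ∀ B : Subgroup W, B ≤ A → (∀ z ∈ B, z ^ 2 = 1) → Nat.card B ≤ 2 := by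
    intro B hB hB2
    have h1 : Nat.card {a : A // a ^ 2 = 1} ≤ 2 := by
      have := Fintype.ofFinite A
      rw [Nat.card_eq_fintype_card, Fintype.card_subtype]
      exact IsCyclic.card_pow_eq_one_le (by norm_num)
    refine le_trans ?_ h1
    refine Nat.card_le_card_of_injective
      (fun a : B => (⟨⟨a.1, hB a.2⟩, by ext; simpa using hB2 a.1 a.2⟩ : {a : A // a ^ 2 = 1})) ?_
    intro a b h
    have h2 := congrArg (fun z : {a : A // a ^ 2 = 1} => (z.1 : W)) h
    exact Subtype.ext h2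
  have hidx : Nat.card A * A.relIndex S = Nat.card S := by
    rw [← Subgroup.relIndex_bot_left, ← Subgroup.relIndex_bot_left,
      Subgroup.relIndex_mul_relIndex _ _ _ bot_le hA]
  have hposA : 0 < Nat.card A := Nat.card_pos
  have hposS : 0 < Nat.card S := Nat.card_pos
  have hr : A.relIndex S = 1 ∨ A.relIndex S = 2 := by
    have h1 : A.relIndex S ≤ 2 := by
      by_contra hc
      push Not at hc
      have : Nat.card A * 3 ≤ Nat.card A * A.relIndex S := Nat.mul_le_mul_left _ hc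
      rw [hidx] at this
      omega
    have h2 : A.relIndex S ≠ 0 := by
      intro h0
      rw [h0, mul_zero] at hidx
      omega
    omega
  rcases hr with hr | hr
  · have hSA : S ≤ A := Subgroup.relIndex_eq_one.1 hr
    have h1 : ⁅S, S⁆ = ⊥ := by
      rw [Subgroup.commutator_eq_bot_iff_le_centralizer]
      intro s hs
      rw [Subgroup.mem_centralizer_iff]
      intro t ht
      exact hcomm t (hSA ht) s (hSA hs)
    rw [h1, le_bot_iff] at hZ
    rw [hZ]
    simp
  · have hmul : ∀ a ∈ S, ∀ b ∈ S, (a * b ∈ A ↔ (a ∈ A ↔ b ∈ A)) := by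
      intro a ha b hb
      have h := Subgroup.mul_mem_iff_of_index_two (H := A.subgroupOf S) hr (a := ⟨a, ha⟩) (b := ⟨b, hb⟩)
      simpa [Subgroup.mem_subgroupOf] using h
    obtain ⟨s, hs, hsA⟩ : ∃ s ∈ S, s ∉ A := by
      by_contra hc
      push Not at hc
      rw [Subgroup.relIndex_eq_one.2 hc] at hr
      omega
    have hinvA : ∀ h ∈ S, h ∉ A → h⁻¹ ∉ A := fun h _ hA h1 => hA (by simpa using A.inv_mem h1)
    -- conjugation by an element outside `A`
    have hconj : ∀ h ∈ S, h ∉ A → ∀ y ∈ A, h * y * h⁻¹ ∈ A := by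
      intro h hh hhA y hy
      have h1 : h * y ∉ A := by
        intro h2
        exact hhA (((hmul h hh y (hA hy)).1 h2).2 hy)
      rw [hmul (h * y) (S.mul_mem hh (hA hy)) h⁻¹ (S.inv_mem hh)]
      exact ⟨fun h2 => absurd h2 h1, fun h2 => absurd h2 (hinvA h hh hhA)⟩
    have hsame : ∀ h ∈ S, h ∉ A → ∀ y ∈ A, s * y * s⁻¹ = h * y * h⁻¹ := by
      intro h hh hhA y hy
      have h1 : h⁻¹ * s ∈ A := (hmul _ (S.inv_mem hh) _ hs).2
        ⟨fun h2 => absurd h2 (hinvA h hh hhA), fun h2 => absurd h2 hsA⟩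
      have h2 := hcomm _ h1 y hy
      have h3 : s * y * s⁻¹ = h * (h⁻¹ * s * y) * s⁻¹ := by group
      rw [h3, h2]
      group
    -- the subgroup of the elements of `A` inverted by `s`
    let B : Subgroup W :=
      { carrier := {z | z ∈ A ∧ s * z * s⁻¹ = z⁻¹}
        mul_mem' := by
          rintro a b ⟨ha, ha'⟩ ⟨hb, hb'⟩
          refine ⟨A.mul_mem ha hb, ?_⟩
          have h1 : s * (a * b) * s⁻¹ = (s * a * s⁻¹) * (s * b * s⁻¹) := by group
          rw [h1, ha', hb', mul_inv_rev]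
          exact hcomm _ (A.inv_mem ha) _ (A.inv_mem hb)
        one_mem' := ⟨A.one_mem, by simp⟩
        inv_mem' := by
          rintro a ⟨ha, ha'⟩
          refine ⟨A.inv_mem ha, ?_⟩
          have h1 : s * a⁻¹ * s⁻¹ = (s * a * s⁻¹)⁻¹ := by group
          rw [h1, ha'] }
    have hkey : ∀ c ∈ A, ∀ h ∈ S, h ∉ A → c * h * c⁻¹ * h⁻¹ ∈ B := by
      intro c hc h hh hhA
      have h0 : h * c⁻¹ * h⁻¹ ∈ A := hconj h hh hhA _ (A.inv_mem hc)
      have h1 : c * h * c⁻¹ * h⁻¹ = c * (h * c⁻¹ * h⁻¹) := by group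
      have h2 : c * (h * c⁻¹ * h⁻¹) ∈ A := A.mul_mem hc h0
      rw [h1]
      refine ⟨h2, ?_⟩
      rw [hsame h hh hhA _ h2]
      have hh2 : h * h ∈ A := (hmul h hh h hh).2 Iff.rfl
      have h3 := hcomm _ hh2 _ (A.inv_mem hc)
      have h4 : h * (c * (h * c⁻¹ * h⁻¹)) * h⁻¹ = (h * c * h⁻¹) * ((h * h) * c⁻¹ * (h * h)⁻¹) := by
        group
      rw [h4, h3]
      have h5 : h * c * h⁻¹ * (c⁻¹ * (h * h) * (h * h)⁻¹) = (h * c * h⁻¹) * c⁻¹ := by group
      rw [h5]
      group
    have hB : ⁅S, S⁆ ≤ B := by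
      rw [Subgroup.commutator_le]
      intro g hg h hh
      rw [commutatorElement_def]
      by_cases hgA : g ∈ A
      · by_cases hhA : h ∈ A
        · rw [hcomm g hgA h hhA]
          have : h * g * g⁻¹ * h⁻¹ = 1 := by group
          rw [this]
          exact B.one_mem
        · exact hkey g hgA h hh hhA
      · by_cases hhA : h ∈ A
        · have h1 := B.inv_mem (hkey h hhA g hg hgA)
          have h2 : (h * g * h⁻¹ * g⁻¹)⁻¹ = g * h * g⁻¹ * h⁻¹ := by group
          rwa [h2] at h1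
        · have hc : g * h⁻¹ ∈ A := (hmul _ hg _ (S.inv_mem hh)).2
            ⟨fun h2 => absurd h2 hgA, fun h2 => absurd h2 (hinvA h hh hhA)⟩
          have h1 := hkey (g * h⁻¹) hc h hh hhA
          have h2 : g * h⁻¹ * h * (g * h⁻¹)⁻¹ * h⁻¹ = g * h * g⁻¹ * h⁻¹ := by group
          rwa [h2] at h1
    apply hle Z (fun z hz => (hB (hZ hz)).1)
    intro z hz
    have h1 := (hB (hZ hz)).2
    have h2 := hZc z hz s hs
    rw [← h2, mul_inv_cancel_right] at h1
    rw [pow_two]
    nth_rewrite 1 [h1]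
    exact inv_mul_cancel z

end Pool.Agent.helper75.AU
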